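import Pool.Agent.K1H73.ON.Stm

/-! Project ON, piece HA: exactly two outer edges at distance two give an arc. -/

set_option autoImplicit false

namespace Pool.Agent.K1H16.ON

open Finset Pool.Agent.K1H73.ON

lemma nbr_symm {p q : V} (h : Nbr p q) : Nbr q p := by
  obtain ⟨p1, p2⟩ := p
  obtain ⟨q1, q2⟩ := q
  simp only [Nbr, Prod.mk_sub_mk, Prod.mk.injEq, Int.even_iff] at h ⊢
  omega

lemma nbr_cor {c : V} (hc : Even (c.1 + c.2)) {j : ℕ} (hj : j < 6) {q : V}
    (h : Nbr (cor c j) q) : q = outv c j ∨ q = cor c (j + 1) ∨ q = cor c (j + 5) := by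
  obtain ⟨c1, c2⟩ := c
  obtain ⟨q1, q2⟩ := q
  simp only [Int.even_iff] at hc
  interval_cases j <;>
    simp [Nbr, cor, outv, Prod.mk_sub_mk, Prod.mk.injEq, Int.even_iff] at h ⊢ <;> omega

lemma cor_six (c : V) (j : ℕ) : cor c (j + 6) = cor c j := by
  simp [cor]

lemma side_five (c : V) (j : ℕ) : side c (j + 5) = s(cor c (j + 5), cor c j) := by
  unfold side
  rw [show j + 5 + 1 = j + 6 from rfl, cor_six]

lemma d1 (c : V) {j : ℕ} (hj : j < 6) : side c (j + 5) ≠ side c j := by
  obtain ⟨c1, c2⟩ := c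
  interval_cases j <;> simp [side, cor, Sym2.eq_iff, Prod.mk.injEq]

lemma d2 (c : V) {j : ℕ} (hj : j < 6) : side c (j + 5) ≠ out c j := by
  obtain ⟨c1, c2⟩ := c
  interval_cases j <;> simp [side, out, outv, cor, Sym2.eq_iff, Prod.mk.injEq] <;> omega

lemma d3 (c : V) {j : ℕ} (hj : j < 6) : side c j ≠ out c j := by
  obtain ⟨c1, c2⟩ := c
  interval_cases j <;> simp [side, out, outv, cor, Sym2.eq_iff, Prod.mk.injEq] <;> omega

lemma deg_card {D : Finset V} {a b : V} {ω : Finset (Sym2 V)} {c : V} (h : IsCfg D a b ω)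
    (hc : Even (c.1 + c.2)) {j : ℕ} (hj : j < 6) : deg ω (cor c j) =
      (({side c (j + 5), side c j, out c j} : Finset (Sym2 V)).filter (· ∈ ω)).card := by
  classical
  unfold deg
  congr 1
  ext e
  simp only [Finset.mem_filter, Finset.mem_insert, Finset.mem_singleton]
  constructor
  · rintro ⟨he, hv⟩
    refine ⟨?_, he⟩
    obtain ⟨p, q, rfl, hpq, _, _⟩ := h.1 e he
    have key : ∀ q' : V, Nbr (cor c j) q' → s(cor c j, q') = side c (j + 5) ∨
        s(cor c j, q') = side c j ∨ s(cor c j, q') = out c j := by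
      intro q' hq'
      rcases nbr_cor hc hj hq' with rfl | rfl | rfl
      · exact Or.inr (Or.inr Sym2.eq_swap)
      · exact Or.inr (Or.inl rfl)
      · refine Or.inl ?_
        rw [side_five]
        exact Sym2.eq_swap
    rcases Sym2.mem_iff.1 hv with hv | hv
    · rw [← hv] at hpq ⊢
      exact key q hpq
    · rw [← hv] at hpq ⊢
      rw [Sym2.eq_swap]
      exact key p (nbr_symm hpq)
  · rintro ⟨he | he | he, h1⟩
    · refine ⟨h1, ?_⟩
      rw [he, side_five]
      exact Sym2.mem_mk_right _ _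
    · refine ⟨h1, ?_⟩
      rw [he]
      exact Sym2.mem_mk_left _ _
    · refine ⟨h1, ?_⟩
      rw [he]
      exact Sym2.mem_mk_right _ _

lemma par {D : Finset V} {a b : V} {ω : Finset (Sym2 V)} {c : V} (h : IsCfg D a b ω)
    (hc : Even (c.1 + c.2)) {j : ℕ} (hj : j < 6) (ha : cor c j ≠ a) (hb : cor c j ≠ b) :
    (out c j ∈ ω → (side c (j + 5) ∈ ω ↔ side c j ∉ ω)) ∧
      (out c j ∉ ω → (side c (j + 5) ∈ ω ↔ side c j ∈ ω)) := by
  classical
  have h1 := h.2.2 _ ha hb
  rw [deg_card h hc hj] at h1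
  have e1 := d1 c hj
  have e2 := d2 c hj
  have e3 := d3 c hj
  by_cases x : side c (j + 5) ∈ ω <;> by_cases y : side c j ∈ ω <;>
    by_cases z : out c j ∈ ω <;>
    simp [Finset.filter_insert, Finset.filter_singleton, x, y, z, e1, e2, e3] at h1 ⊢

lemma hex_eq (c : V) : hex c =
    {side c 0, side c 1, side c 2, side c 3, side c 4, side c 5} := by
  unfold hex
  rw [show Finset.range 6 = {0, 1, 2, 3, 4, 5} from rfl]
  simp only [Finset.image_insert, Finset.image_singleton]

lemma fin_aux {ω : Finset (Sym2 V)} {S0 S1 S2 S3 S4 S5 : Sym2 V} (T : Finset (Sym2 V))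
    (h : ∀ e, (e ∈ ω ∧ (e = S0 ∨ e = S1 ∨ e = S2 ∨ e = S3 ∨ e = S4 ∨ e = S5)) ↔ e ∈ T) :
    ω ∩ {S0, S1, S2, S3, S4, S5} = T := by
  ext e
  rw [← h e]
  simp only [Finset.mem_inter, Finset.mem_insert, Finset.mem_singleton]

theorem t_HA : HA := by
  classical
  intro D a b ω c i h hi hc hab ho
  have p0 := par h hc (show 0 < 6 by norm_num) (hab 0 (by norm_num)).1 (hab 0 (by norm_num)).2
  have p1 := par h hc (show 1 < 6 by norm_num) (hab 1 (by norm_num)).1 (hab 1 (by norm_num)).2
  have p2 := par h hc (show 2 < 6 by norm_num) (hab 2 (by norm_num)).1 (hab 2 (by norm_num)).2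
  have p3 := par h hc (show 3 < 6 by norm_num) (hab 3 (by norm_num)).1 (hab 3 (by norm_num)).2
  have p4 := par h hc (show 4 < 6 by norm_num) (hab 4 (by norm_num)).1 (hab 4 (by norm_num)).2
  have p5 := par h hc (show 5 < 6 by norm_num) (hab 5 (by norm_num)).1 (hab 5 (by norm_num)).2
  have o0 := ho 0 (by norm_num)
  have o1 := ho 1 (by norm_num)
  have o2 := ho 2 (by norm_num)
  have o3 := ho 3 (by norm_num)
  have o4 := ho 4 (by norm_num)
  have o5 := ho 5 (by norm_num)
  have s6 : side c 6 = side c 0 := rfl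
  have s7 : side c 7 = side c 1 := rfl
  have s8 : side c 8 = side c 2 := rfl
  have s9 : side c 9 = side c 3 := rfl
  have s10 : side c 10 = side c 4 := rfl
  simp only [TyA, TyB, hex_eq]
  simp only [Nat.reduceAdd, s6, s7, s8, s9, s10, zero_add] at p0 p1 p2 p3 p4 p5
  clear h hc hab ho
  interval_cases i
  all_goals
    simp only [Nat.reduceAdd, s6, s7, s8, s9, s10, zero_add]
    clear s6 s7 s8 s9 s10
    simp at o0 o1 o2 o3 o4 o5
    simp only [o0, o1, o2, o3, o4, o5, not_true_eq_false, not_false_eq_true, forall_true_left,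
      true_implies, false_implies, true_and, and_true] at p0 p1 p2 p3 p4 p5
    clear o0 o1 o2 o3 o4 o5
    generalize side c 0 = S0 at *
    generalize side c 1 = S1 at *
    generalize side c 2 = S2 at *
    generalize side c 3 = S3 at *
    generalize side c 4 = S4 at *
    generalize side c 5 = S5 at *
    by_cases x0 : S0 ∈ ω <;> by_cases x1 : S1 ∈ ω <;> by_cases x2 : S2 ∈ ω <;>
      by_cases x3 : S3 ∈ ω <;> by_cases x4 : S4 ∈ ω <;> by_cases x5 : S5 ∈ ω <;>
      simp only [x0, x1, x2, x3, x4, x5, not_true_eq_false, not_false_eq_true, iff_true, iff_false,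
        true_iff, false_iff] at p0 p1 p2 p3 p4 p5
  all_goals
    first
    | (left
       apply fin_aux
       intro e
       simp only [Finset.mem_insert, Finset.mem_singleton]
       constructor
       · rintro ⟨he, rfl | rfl | rfl | rfl | rfl | rfl⟩ <;> first | tauto | exact absurd he ‹_›
       · rintro (rfl | rfl) <;> tauto)
    | (right
       apply fin_aux
       intro e
       simp only [Finset.mem_insert, Finset.mem_singleton]
       constructor
       · rintro ⟨he, rfl | rfl | rfl | rfl | rfl | rfl⟩ <;> first | tauto | exact absurd he ‹_›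
       · rintro (rfl | rfl | rfl | rfl) <;> tauto)

end Pool.Agent.K1H16.ON
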